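import Mathlib

namespace Pool.Agent.Results.MP_5036fd_co.Counter

open Finset Function

variable {n : ℕ}

open Classical in
/-- Probability under the uniform distribution on the cube. -/
noncomputable def pr (P : (Fin n → Bool) → Prop) : ℝ := (univ.filter P).card / 2 ^ n

def flip (x : Fin n → Bool) (i : Fin n) : Fin n → Bool := update x i (!x i)

noncomputable def mu (f : (Fin n → Bool) → Bool) : ℝ := pr fun x => f x = true

/-- Total influence. -/
noncomputable def infl (f : (Fin n → Bool) → Bool) : ℝ := ∑ i, pr fun x => f x ≠ f (flip x i)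

lemma pr_mono {P Q : (Fin n → Bool) → Prop} (h : ∀ x, P x → Q x) : pr P ≤ pr Q := by
  classical
  unfold pr
  gcongr
  exact h _

lemma pr_congr {P Q : (Fin n → Bool) → Prop} (h : ∀ x, P x ↔ Q x) : pr P = pr Q := by
  rw [show P = Q from funext fun x => propext (h x)]

lemma pr_split (P Q : (Fin n → Bool) → Prop) :
    pr P = pr (fun x => P x ∧ Q x) + pr fun x => P x ∧ ¬Q x := by
  classical
  unfold pr
  rw [← add_div, ← Nat.cast_add, ← card_filter_add_card_filter_not (s := filter P univ) Q,
    filter_filter, filter_filter]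
  congr!

lemma pr_inv {τ : (Fin n → Bool) → Fin n → Bool} (h : Involutive τ) (P : (Fin n → Bool) → Prop) :
    pr (fun x => P (τ x)) = pr P := by
  classical
  unfold pr
  congr 2
  exact card_bijective τ h.bijective (by simp)

lemma half {τ : (Fin n → Bool) → Fin n → Bool} (h : Involutive τ) {P Q : (Fin n → Bool) → Prop}
    (hP : ∀ x, P (τ x) ↔ P x) (hQ : ∀ x, P x → (Q (τ x) ↔ ¬Q x)) :
    pr (fun x => P x ∧ Q x) = pr P / 2 := by
  have := pr_inv h fun x => P x ∧ Q x
  rw [pr_congr (Q := fun x => P x ∧ ¬Q x) fun x => by rw [hP, and_congr_right (hQ x)]] at this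
  rw [pr_split P Q, this]; ring

lemma pr_sum {α : Type} [Fintype α] [DecidableEq α] (P : (Fin n → Bool) → Prop)
    (a : (Fin n → Bool) → α) (U : Finset α) :
    pr (fun x => P x ∧ a x ∈ U) = ∑ y ∈ U, pr fun x => P x ∧ a x = y := by
  classical
  unfold pr
  rw [← sum_div, ← Nat.cast_sum, card_eq_sum_card_fiberwise (f := a) (t := U)
    (fun x hx => by simp at hx; exact hx.2)]
  congr 2
  refine sum_congr rfl fun y hy => ?_
  congr 1; ext x; simp only [mem_filter, mem_univ, true_and]
  exact ⟨fun h => ⟨h.1.1, h.2⟩, fun h => ⟨⟨h.1, h.2 ▸ hy⟩, h.2⟩⟩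

lemma flip_inv (i : Fin n) : Involutive fun x : Fin n → Bool => flip x i := fun x => by simp [flip]

lemma fix {k : ℕ} (b : Fin k → Fin n) (hb : Injective b) (y : Fin k → Bool)
    (P : (Fin n → Bool) → Prop) (hP : ∀ x t, P (flip x (b t)) ↔ P x) :
    pr (fun x => P x ∧ (fun t => x (b t)) = y) = pr P / 2 ^ k := by
  have : ∀ T : Finset (Fin k), pr (fun x => P x ∧ ∀ t ∈ T, x (b t) = y t) = pr P / 2 ^ T.card := by
    intro T
    induction T using Finset.induction_on with
    | empty => simp
    | insert t T ht ih =>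
      rw [card_insert_of_notMem ht, pow_succ, ← div_div, ← ih, ← half (flip_inv (b t))
        (Q := fun x => x (b t) = y t) (fun x => and_congr (hP x t) (forall₂_congr fun u hu => by
          rw [flip, update_of_ne (hb.ne (ne_of_mem_of_not_mem hu ht))]))
        (fun x _ => by cases h : y t <;> simp [flip])]
      exact pr_congr fun x => by simp only [forall_mem_insert]; tauto
  simpa [funext_iff] using this univ

theorem result (C : ℝ) (hC : 0 < C) (δ : ℝ) (hδ : 0 < δ) : ∃ (M ε : ℝ) (n : ℕ)
    (f : (Fin n → Bool) → Bool), 0 < M ∧ 0 < ε ∧ 1 ≤ n ∧ 0 < mu f ∧ mu f ≤ δ ∧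
    infl f ≤ 2 * mu f * (Real.logb 2 (1 / mu f) + M) ∧
    ∀ (g : (Fin n → Bool) → Bool) (J : Finset (Fin n)),
      (J.card : ℝ) ≤ C * Real.logb 2 (1 / mu f) * 2 ^ (M / ε) →
      (∀ x y, (∀ i ∈ J, x i = y i) → g x = g y) → ε * mu f < pr fun x => f x ≠ g x := by
  obtain ⟨s, hs⟩ := pow_unbounded_of_one_lt (1 / δ) (one_lt_two (α := ℝ))
  obtain ⟨t, ht⟩ := pow_unbounded_of_one_lt (max 1 (4 * C * (s + 1))) (one_lt_two (α := ℝ))
  have t0 : 0 < t := Nat.pos_of_ne_zero (by rintro rfl; simp at ht)
  set j := 3 * t with hj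
  obtain ⟨n, ⟨e⟩⟩ := Finite.exists_equiv_fin (Fin s ⊕ Fin j ⊕ (Fin j → Bool))
  let a : Fin s → Fin n := fun i => e (.inl i)
  let b : Fin j → Fin n := fun i => e (.inr (.inl i))
  let m : (Fin j → Bool) → Fin n := fun y => e (.inr (.inr y))
  let A : (Fin n → Bool) → Prop := fun x => (fun i => x (a i)) = fun _ => true
  let ad : (Fin n → Bool) → Fin j → Bool := fun x i => x (b i)
  let f : (Fin n → Bool) → Bool := fun x => decide (A x) && x (m (ad x))
  let τ : (Fin n → Bool) → Fin n → Bool := fun x => flip x (m (ad x))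
  have hA : pr A = 1 / 2 ^ s := by
    have := fix a (fun _ _ h => by simpa [a] using h) (fun _ => true) (fun _ => True) (by simp)
    simp only [true_and] at this
    rw [this]; simp [pr]
  have Ab : ∀ x i, A (flip x (b i)) ↔ A x := fun x i => by simp [A, flip, a, b]
  have Am : ∀ x y, A (flip x (m y)) ↔ A x := fun x i => by simp [A, flip, a, m]
  have adm : ∀ x y, ad (flip x (m y)) = ad x := fun x y => by ext; simp [ad, flip, b, m]
  have hτ : Involutive τ := fun x => by simp only [τ, adm]; exact flip_inv _ x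
  have fτ : ∀ x, A x → f (τ x) = !f x := fun x h => by
    simp only [f, τ, adm, Am, h]; simp [flip]
  have hμ : mu f = pr A / 2 := by
    rw [← half hτ (Q := fun x => f x = true) (fun x => Am x _) fun x h => by simp [fτ x h]]
    exact pr_congr fun x => by simp [f]
  have cell : ∀ y, pr (fun x => A x ∧ ad x = y) = pr A / 2 ^ j := fun y =>
    fix b (fun _ _ h => by simpa [b] using h) y A Ab
  have μ0 : 0 < mu f := by rw [hμ, hA]; positivity
  have lg : Real.logb 2 (1 / mu f) = s + 1 := by
    rw [hμ, hA, show 1 / (1 / (2 : ℝ) ^ s / 2) = 2 ^ (s + 1) by field_simp; ring, Real.logb_pow]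
    simp
  refine ⟨j / 2, 3 / 4, n, f, by positivity, by norm_num,
    (m fun _ => true).pos, μ0, ?_, ?_, fun g J hJ hg => ?_⟩
  · rw [hμ, hA, div_le_iff₀ two_pos, div_le_iff₀ (by positivity)]
    rw [div_lt_iff₀ hδ] at hs
    nlinarith
  · have i1 : ∀ i, (pr fun x => f x ≠ f (flip x i)) ≤ 2 * mu f := fun i => by
      rw [pr_split _ (fun x => f x = true), two_mul]
      refine add_le_add (pr_mono fun x h => h.2) ?_
      rw [mu]
      rw [← pr_inv (flip_inv i) fun x => f x = true]
      exact pr_mono fun x h => by simpa [Bool.eq_false_iff.2 h.2] using h.1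
    have i2 : ∀ i, (pr fun x => f x ≠ f (flip x (b i))) ≤ mu f := fun i => by
      have ne : ∀ x, m (ad (flip x (b i))) ≠ m (ad x) := fun x h => by
        have := congrFun (show ad (flip x (b i)) = ad x by simpa [m] using h) i
        simp [ad, flip] at this
      rw [hμ, ← half hτ (Q := fun x => f x ≠ f (flip x (b i))) (fun x => Am x _) fun x h => ?_]
      · refine pr_mono fun x h => ⟨?_, h⟩
        by_contra h'
        simp [f, Ab, h'] at h
      · have : f (flip (τ x) (b i)) = f (flip x (b i)) := by
          have c : flip (τ x) (b i) = flip (flip x (b i)) (m (ad x)) := by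
            have : b i ≠ m (ad x) := by simp [b, m]
            simp only [τ, flip, update_of_ne this, update_of_ne this.symm, update_comm this]
          simp only [c, f, Am, adm]
          rw [show flip (flip x (b i)) (m (ad x)) (m (ad (flip x (b i)))) = _ from
            update_of_ne (ne x) _ _]
        rw [this, fτ x h]
        cases f x <;> simp
    have i3 : ∀ y, (pr fun x => f x ≠ f (flip x (m y))) ≤ pr A / 2 ^ j := fun y => by
      rw [← cell y]
      refine pr_mono fun x h => ?_
      by_contra h'
      apply h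
      simp only [f, Am, adm]
      by_cases hx : A x
      · rw [flip, update_of_ne (fun e => h' ⟨hx, by simpa [m] using e⟩)]
      · simp [hx]
    rw [infl, ← e.sum_comp, Fintype.sum_sum_type, Fintype.sum_sum_type, lg]
    refine (add_le_add (sum_le_card_nsmul _ _ _ fun i _ => i1 _) (add_le_add
      (sum_le_card_nsmul _ _ _ fun i _ => i2 i) (sum_le_card_nsmul _ _ _ fun y _ => i3 y))).trans
      (le_of_eq ?_)
    simp [hμ]
    field_simp
    ring
  · have low := half hτ (P := fun x => A x ∧ m (ad x) ∉ J) (Q := fun x => f x ≠ g x)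
      (fun x => by simp only [τ, Am, adm]) fun x h => by
        rw [fτ x h.1, hg (τ x) x fun i hi => update_of_ne (ne_of_mem_of_not_mem hi h.2) _ _]
        cases f x <;> simp
    refine lt_of_lt_of_le ?_ (low.ge.trans (pr_mono fun x h => h.2))
    have s1 := pr_split A fun x => m (ad x) ∈ J
    have s2 := pr_sum A ad (univ.filter fun y => m y ∈ J)
    simp only [mem_filter, mem_univ, true_and, cell, sum_const, nsmul_eq_mul] at s2
    have c : ((univ.filter fun y => m y ∈ J).card : ℝ) ≤ J.card := by
      exact_mod_cast card_le_card_of_injOn m (fun y hy => by simpa using hy)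
        fun _ _ _ _ h => by simpa [m] using h
    rw [lg, show (j : ℝ) / 2 / (3 / 4) = (2 * t : ℕ) by rw [hj]; push_cast; ring,
      Real.rpow_natCast] at hJ
    have h1 : 4 * (C * (s + 1) * 2 ^ (2 * t)) < 2 ^ j := by
      have := mul_lt_mul_of_pos_right ((le_max_right _ _).trans_lt ht)
        (by positivity : (0 : ℝ) < 2 ^ (2 * t))
      rw [← pow_add, show t + 2 * t = j by omega] at this
      linarith
    have h2 : ((univ.filter fun y => m y ∈ J).card : ℝ) * (pr A / 2 ^ j) < pr A / 4 := by
      rw [mul_div_assoc', div_lt_div_iff₀ (by positivity) (by norm_num)]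
      nlinarith
    linarith

end Pool.Agent.Results.MP_5036fd_co.Counter
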